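import Pool.Agent.helper44.NLT.Spec
import Pool.Agent.helper98.ILF.Julia

set_option autoImplicit false

open Complex Metric Set Filter Topology MeasureTheory MPS
open Pool.Agent.helper98.ILF Pool.Agent.helper16.Multibrot

noncomputable section

namespace NLT

theorem FIN_area (n : ℕ) (c : ℂ) (h0 : volume (juliaSet (fun z : ℂ => z ^ n + c)) = 0) :
    ¬ HasInvariantLineField (fun z : ℂ => z ^ n + c) := by
  rintro ⟨μ, -, -, hpos, hsub, -⟩
  have : volume {z | μ z ≠ 0} = 0 := measure_mono_null hsub h0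
  rw [this] at hpos
  exact lt_irrefl _ hpos

theorem FIN_mem (n : ℕ) (hn : 2 ≤ n) (c : ℂ) (hc : c ∈ filled n c) : c ∈ multibrot n := by
  intro hT
  have h1 : ∀ᶠ k : ℕ in atTop, 2 + ‖c‖ + 1 ≤ ‖(fun z : ℂ => z ^ n + c)^[k] 0‖ :=
    hT.eventually_ge_atTop (2 + ‖c‖ + 1)
  obtain ⟨N, hN⟩ := eventually_atTop.1 h1
  have h2 := hN (N + 1) (by omega)
  have h3 : (fun z : ℂ => z ^ n + c)^[N + 1] 0 = (fun z : ℂ => z ^ n + c)^[N] c := by
    rw [Function.iterate_succ_apply]
    have hn0 : n ≠ 0 := by omega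
    simp [hn0]
  rw [h3] at h2
  have h4 := hc N
  linarith

theorem FIN (hINT : INT_stmt) (hHYI : HYI_stmt) : FIN_stmt := by
  intro hden n hn c hL
  by_cases hc : c ∈ filled n c
  · have hM : c ∈ multibrot n := FIN_mem n hn c hc
    have hI := hINT n c hn hM hL
    have hH := hHYI n c hn hI (hden n hn c hM)
    exact FIN_area n c (volume_juliaSet_pow hn (Or.inr hH)) hL
  · exact FIN_area n c (volume_juliaSet_pow hn (Or.inl hc)) hL

end NLT
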